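import Pool.Agent.Lib_helper84.GarsideMonoid

/-!
# The atom length of the powers of a Garside element grows almost linearly
-/

set_option autoImplicit false

namespace Pool.Agent.Results.MP_89e4fc_al.AlmostLinear

open Pool.Agent.Lib_helper84.Garside

universe u

/-- For every `r` and every `ε > 0` there is a constant `C` such that, in every Garside monoid `M`
with a Garside element `d` which is not a product of more than `r` non-identity elements
(`‖d‖ ≤ r`), every factorisation of `d ^ k` into non-identity elements has at most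
`C * k ^ (1 + ε)` factors, i.e. `‖d ^ k‖ ≤ C * k ^ (1 + ε)` for all `k`. -/
theorem result (r : ℕ) (ε : ℝ) (hε : 0 < ε) :
    ∃ C : ℝ, ∀ (M : Type u) [Monoid M] (d : M),
      (∀ a b c : M, a * b = a * c → b = c) →
      (∀ a b c : M, b * a = c * a → b = c) →
      (∃ len : M → ℕ, (∀ a b : M, len a + len b ≤ len (a * b)) ∧
          ∀ a : M, len a = 0 → a = 1) →
      (∀ a b : M, ∃ m : M, (∃ c, m = a * c) ∧ (∃ c, m = b * c) ∧
          ∀ x : M, (∃ c, x = a * c) → (∃ c, x = b * c) → ∃ c, x = m * c) →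
      (∀ a b : M, ∃ g : M, (∃ c, a = g * c) ∧ (∃ c, b = g * c) ∧
          ∀ x : M, (∃ c, a = x * c) → (∃ c, b = x * c) → ∃ c, g = x * c) →
      (∀ x : M, (∃ c, d = x * c) ↔ (∃ c, d = c * x)) →
      Submonoid.closure {x : M | ∃ c, d = x * c} = ⊤ →
      (∀ (n : ℕ) (f : Fin n → M), (∀ i, f i ≠ 1) → (List.ofFn f).prod = d → n ≤ r) →
      ∀ (k n : ℕ) (f : Fin n → M), (∀ i, f i ≠ 1) → (List.ofFn f).prod = d ^ k →
        (n : ℝ) ≤ C * (k : ℝ) ^ (1 + ε) := by
  obtain ⟨C, hC, hB⟩ := exists_bd r (1 + ε) (by linarith)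
  refine ⟨C, ?_⟩
  intro M _ d hcl hcr hlen hlcm hgcd hbal hgen hr k n f hf hprod
  exact garside_bound d hC hB hcl hcr hlen hlcm hgcd hbal hgen hr k n f hf hprod

end Pool.Agent.Results.MP_89e4fc_al.AlmostLinear
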