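import Pool.Agent.Lib_helper84.FT.Rate

/-!
# A Garside monoid with superlinear growth of `‖Δ ^ k‖`

There is one Garside monoid `M` with a central Garside element `Δ` such that
`‖Δ ^ k‖ ≥ k log k / (128 log log k)` for all `k ≥ 8`.  So `‖Δ ^ k‖` is not `O(k)`: Q1 is answered in
the negative.
-/

set_option autoImplicit false

namespace Pool.Agent.Results.MP_89e4fc_al.Counterexample

/-- `M` is a Garside monoid with Garside element `d`: literally the list of hypotheses of the
problem (two-sided cancellation, atomicity, left and right lcms and gcds, balanced, finite and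
generating set of divisors of `d`). -/
def IsGarside (M : Type) [Monoid M] (d : M) : Prop :=
  (∀ a b c : M, a * b = a * c → b = c) ∧
  (∀ a b c : M, b * a = c * a → b = c) ∧
  (∃ len : M → ℕ, (∀ a b : M, len a + len b ≤ len (a * b)) ∧
      ∀ a : M, len a = 0 → a = 1) ∧
  (∀ a b : M, ∃ m : M, (∃ c, m = a * c) ∧ (∃ c, m = b * c) ∧
      ∀ x : M, (∃ c, x = a * c) → (∃ c, x = b * c) → ∃ c, x = m * c) ∧
  (∀ a b : M, ∃ g : M, (∃ c, a = g * c) ∧ (∃ c, b = g * c) ∧
      ∀ x : M, (∃ c, a = x * c) → (∃ c, b = x * c) → ∃ c, g = x * c) ∧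
  (∀ a b : M, ∃ m : M, (∃ c, m = c * a) ∧ (∃ c, m = c * b) ∧
      ∀ x : M, (∃ c, x = c * a) → (∃ c, x = c * b) → ∃ c, x = c * m) ∧
  (∀ a b : M, ∃ g : M, (∃ c, a = c * g) ∧ (∃ c, b = c * g) ∧
      ∀ x : M, (∃ c, a = c * x) → (∃ c, b = c * x) → ∃ c, g = c * x) ∧
  (∀ x : M, (∃ c, d = x * c) ↔ (∃ c, d = c * x)) ∧
  Set.Finite {x : M | ∃ c, d = x * c} ∧
  Submonoid.closure {x : M | ∃ c, d = x * c} = ⊤

/-- `x` is a product of `n` non-identity elements. -/
def Factors {M : Type} [Monoid M] (x : M) (n : ℕ) : Prop :=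
  ∃ f : Fin n → M, (∀ i, f i ≠ 1) ∧ (List.ofFn f).prod = x

/-- There is a Garside monoid `M` with a central Garside element `d` such that for every `k ≥ 8` the
power `d ^ k` is a product of at least `k log k / (128 log log k)` non-identity elements of `M`. -/
theorem result :
    ∃ (M : Type) (_ : Monoid M) (d : M), IsGarside M d ∧ (∀ x : M, d * x = x * d) ∧
      ∀ k : ℕ, 8 ≤ k → ∃ n : ℕ, Factors (d ^ k) n ∧
        (k : ℝ) * Real.log k / (128 * Real.log (Real.log k)) ≤ n := by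
  obtain ⟨M, mM, d, hG, hc, h⟩ := Pool.Agent.FT.counterexample
  exact ⟨M, mM, d, ⟨hG.left_cancel, hG.right_cancel, hG.len, hG.lcm, hG.gcd, hG.lcm', hG.gcd',
    hG.balanced, hG.finite, hG.gen⟩, hc, h⟩

end Pool.Agent.Results.MP_89e4fc_al.Counterexample
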