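import Pool.Agent.Lib_helper58.GHyp.HypMonoid

/-!
# `‖Δ ^ k‖` grows linearly when the quotient by `⟨Δ⟩` is hyperbolic
-/

set_option autoImplicit false

namespace Pool.Agent.Results.MP_89e4fc_al.HyperbolicQuotient

/-- `M` is a Garside monoid with Garside element `d`: literally the list of hypotheses of the
problem (two-sided cancellation, atomicity, left and right lcms and gcds, balanced, finite and
generating set of divisors of `d`). -/
def IsGarside (M : Type) [Monoid M] (d : M) : Prop :=
  (∀ a b c : M, a * b = a * c → b = c) ∧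
  (∀ a b c : M, b * a = c * a → b = c) ∧
  (∃ len : M → ℕ, (∀ a b : M, len a + len b ≤ len (a * b)) ∧
      ∀ a : M, len a = 0 → a = 1) ∧
  (∀ a b : M, ∃ m : M, (∃ c, m = a * c) ∧ (∃ c, m = b * c) ∧
      ∀ x : M, (∃ c, x = a * c) → (∃ c, x = b * c) → ∃ c, x = m * c) ∧
  (∀ a b : M, ∃ g : M, (∃ c, a = g * c) ∧ (∃ c, b = g * c) ∧
      ∀ x : M, (∃ c, a = x * c) → (∃ c, b = x * c) → ∃ c, g = x * c) ∧
  (∀ a b : M, ∃ m : M, (∃ c, m = c * a) ∧ (∃ c, m = c * b) ∧
      ∀ x : M, (∃ c, x = c * a) → (∃ c, x = c * b) → ∃ c, x = c * m) ∧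
  (∀ a b : M, ∃ g : M, (∃ c, a = c * g) ∧ (∃ c, b = c * g) ∧
      ∀ x : M, (∃ c, a = c * x) → (∃ c, b = c * x) → ∃ c, g = c * x) ∧
  (∀ x : M, (∃ c, d = x * c) ↔ (∃ c, d = c * x)) ∧
  Set.Finite {x : M | ∃ c, d = x * c} ∧
  Submonoid.closure {x : M | ∃ c, d = x * c} = ⊤

/-- The distance of `x` and `y` modulo powers of `d`: the least `m` such that
`x d ^ i` left-divides `y d ^ j` and `y d ^ j` left-divides `x d ^ (i + m)` for some `i` and `j`.
It is the distance of the cosets `x ⟨d⟩` and `y ⟨d⟩` in the quotient `G / ⟨d⟩` of the group of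
fractions `G` of `M`, for the word metric of the generating set of the divisors of `d`. -/
noncomputable def dist {M : Type} [Monoid M] (d x y : M) : ℕ :=
  sInf {m : ℕ | ∃ i j : ℕ, (∃ c, y * d ^ j = x * d ^ i * c) ∧
    ∃ c, x * d ^ (i + m) = y * d ^ j * c}

/-- Gromov's four point condition for `dist d`, i.e. `G / ⟨d⟩` is a hyperbolic group. -/
def HyperbolicMod {M : Type} [Monoid M] (d : M) : Prop :=
  ∃ K : ℕ, ∀ x y z w : M, dist d x z + dist d y w ≤
    max (dist d x y + dist d z w) (dist d y z + dist d x w) + K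

/-- If `M` is a Garside monoid with Garside element `d` and `G / ⟨d⟩` is hyperbolic, then there is
a constant `C` such that every factorisation of `d ^ k` into non-identity elements has at most
`C * k` factors, for all `k`. -/
theorem result (M : Type) [Monoid M] (d : M) (hG : IsGarside M d) (hd : HyperbolicMod d) :
    ∃ C : ℕ, ∀ k n : ℕ, ∀ f : Fin n → M,
      (∀ i, f i ≠ 1) → (List.ofFn f).prod = d ^ k → n ≤ C * k := by
  obtain ⟨hcl, hcr, ⟨len, hlen1, hlen2⟩, hlcm, hgcd, _, _, hbal, _, hgen⟩ := hG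
  obtain ⟨K, hK⟩ := hd
  have hr : ∀ (n : ℕ) (f : Fin n → M), (∀ i, f i ≠ 1) → (List.ofFn f).prod = d → n ≤ len d := by
    have key : ∀ l : List M, (∀ x ∈ l, x ≠ 1) → l.length ≤ len l.prod := by
      intro l
      induction l with
      | nil => intro _; exact Nat.zero_le _
      | cons a l ih =>
        intro h
        have h1 := ih (fun x hx => h x (List.mem_cons_of_mem _ hx))
        have h2 : len a ≠ 0 := fun h0 => h a List.mem_cons_self (hlen2 a h0)
        have h3 := hlen1 a l.prod
        rw [List.length_cons, List.prod_cons]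
        omega
    intro n f hf hprod
    have h1 := key (List.ofFn f) (by
      intro x hx
      obtain ⟨i, rfl⟩ := List.mem_ofFn.1 hx
      exact hf i)
    rw [List.length_ofFn, hprod] at h1
    exact h1
  obtain ⟨C, hC⟩ := Pool.Agent.GHyp.garside_hyperbolic d hcl hcr ⟨len, hlen1, hlen2⟩ hlcm hgcd
    hbal hgen hr (dist d) (fun x y => rfl) K hK
  exact ⟨C, hC⟩

end Pool.Agent.Results.MP_89e4fc_al.HyperbolicQuotient
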