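import Pool.Agent.Lib_helper58.GNU.FINAL

/-!
# No linear bound for `‖Δ ^ k‖` depends only on `‖Δ‖`

The sup of `‖Δ ^ k‖` over all Garside monoids with `‖Δ‖ ≤ 4` is at least
`(k / 8) * 2 ^ √(log₂ k)`.
-/

set_option autoImplicit false

namespace Pool.Agent.Results.MP_89e4fc_al.NoUniformBound

/-- `M` is a Garside monoid with Garside element `d`: literally the list of hypotheses of the
problem (two-sided cancellation, atomicity, left and right lcms and gcds, balanced, finite and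
generating set of divisors of `d`). -/
def IsGarside (M : Type) [Monoid M] (d : M) : Prop :=
  (∀ a b c : M, a * b = a * c → b = c) ∧
  (∀ a b c : M, b * a = c * a → b = c) ∧
  (∃ len : M → ℕ, (∀ a b : M, len a + len b ≤ len (a * b)) ∧
      ∀ a : M, len a = 0 → a = 1) ∧
  (∀ a b : M, ∃ m : M, (∃ c, m = a * c) ∧ (∃ c, m = b * c) ∧
      ∀ x : M, (∃ c, x = a * c) → (∃ c, x = b * c) → ∃ c, x = m * c) ∧
  (∀ a b : M, ∃ g : M, (∃ c, a = g * c) ∧ (∃ c, b = g * c) ∧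
      ∀ x : M, (∃ c, a = x * c) → (∃ c, b = x * c) → ∃ c, g = x * c) ∧
  (∀ a b : M, ∃ m : M, (∃ c, m = c * a) ∧ (∃ c, m = c * b) ∧
      ∀ x : M, (∃ c, x = c * a) → (∃ c, x = c * b) → ∃ c, x = c * m) ∧
  (∀ a b : M, ∃ g : M, (∃ c, a = c * g) ∧ (∃ c, b = c * g) ∧
      ∀ x : M, (∃ c, a = c * x) → (∃ c, b = c * x) → ∃ c, g = c * x) ∧
  (∀ x : M, (∃ c, d = x * c) ↔ (∃ c, d = c * x)) ∧
  Set.Finite {x : M | ∃ c, d = x * c} ∧
  Submonoid.closure {x : M | ∃ c, d = x * c} = ⊤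

/-- `x` is a product of `n` non-identity elements. -/
def Factors {M : Type} [Monoid M] (x : M) (n : ℕ) : Prop :=
  ∃ f : Fin n → M, (∀ i, f i ≠ 1) ∧ (List.ofFn f).prod = x

/-- No linear bound for the atom length of the powers of `Δ` can depend on `‖Δ‖` only, not even
for `‖Δ‖ ≤ 4`: for every `k ≥ 1` there is a Garside monoid with `‖Δ‖ ≤ 4` and
`‖Δ ^ k‖ ≥ (k / 8) * 2 ^ √(log₂ k)`. -/
theorem result (k : ℕ) (hk : 1 ≤ k) :
    ∃ (M : Type) (_ : Monoid M) (d : M), IsGarside M d ∧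
      (∀ n, Factors d n → n ≤ 4) ∧
      ∃ n, Factors (d ^ k) n ∧ (k : ℝ) / 8 * 2 ^ Real.sqrt (Real.logb 2 k) ≤ n := by
  obtain ⟨M, mM, d, h1, h2, n, f, h3, h4, h5⟩ := Pool.Agent.GNU.main_proof k hk
  exact ⟨M, mM, d, h1, fun n ⟨f, hf, hf'⟩ => h2 n f hf hf', n, ⟨f, h3, h4⟩, by linarith⟩

/-- Consequence (not part of the hand-in): for every `C` there are a Garside monoid with
`‖Δ‖ ≤ 4` and a `k ≥ 1` with `‖Δ ^ k‖ > C * k`. -/
theorem no_uniform_constant (C : ℕ) :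
    ∃ (M : Type) (_ : Monoid M) (d : M), IsGarside M d ∧
      (∀ n, Factors d n → n ≤ 4) ∧
      ∃ k n, 1 ≤ k ∧ Factors (d ^ k) n ∧ C * k < n := by
  obtain ⟨M, mM, d, h1, h2, n, h3, h4⟩ := result (2 ^ (C + 4) ^ 2) Nat.one_le_two_pow
  refine ⟨M, mM, d, h1, h2, _, n, Nat.one_le_two_pow, h3, ?_⟩
  have e1 : Real.logb 2 ((2 ^ (C + 4) ^ 2 : ℕ) : ℝ) = ((C + 4 : ℕ) : ℝ) ^ 2 := by
    push_cast
    rw [← Real.rpow_natCast, Real.logb_rpow (by norm_num) (by norm_num)]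
    push_cast; rfl
  rw [e1, Real.sqrt_sq (Nat.cast_nonneg _), Real.rpow_natCast] at h4
  have h4' : (((2 ^ (C + 4) ^ 2 : ℕ) : ℝ)) * 2 ^ (C + 4) ≤ 8 * n := by linarith
  have h5 : 2 ^ (C + 4) ^ 2 * 2 ^ (C + 4) ≤ 8 * n := by exact_mod_cast h4'
  have h6 : C < 2 ^ C := Nat.lt_two_pow_self
  have h7 : 8 * (C * 2 ^ (C + 4) ^ 2) < 2 ^ (C + 4) ^ 2 * 2 ^ (C + 4) := by
    have h8 : 0 < 2 ^ (C + 4) ^ 2 := by positivity
    have h9 : 8 * C < 2 ^ (C + 4) := by rw [pow_add]; omega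
    calc 8 * (C * 2 ^ (C + 4) ^ 2) = 2 ^ (C + 4) ^ 2 * (8 * C) := by ring
      _ < _ := Nat.mul_lt_mul_of_pos_left h9 h8
  omega

end Pool.Agent.Results.MP_89e4fc_al.NoUniformBound
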